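import Pool.Agent.Lib.MP_ae2185_co.Dist.Base

set_option autoImplicit false

namespace Pool.Agent.Results.MP_ae2185_co.ExactDistance

open Pool.Agent.Lib.MP_ae2185_co.Dist

/-- Wade's conclusion holds for all pairs of vertices at distance `d` exactly when `d ≤ 3`. -/
theorem result (d : ℕ) :
    (∀ (V : Type) [Finite V] (G : SimpleGraph V),
      (∀ e ∈ G.edgeSet, G.indepNum < (G.deleteEdges {e}).indepNum) →
      (∀ v, ∃ w, G.Adj v w) →
      ∀ x y : V, 2 ≤ (G.neighborSet x).ncard → 2 ≤ (G.neighborSet y).ncard → G.edist x y = d →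
        ∃ s : Finset V, G.IsNIndepSet G.indepNum s ∧ x ∉ s ∧ y ∉ s) ↔ d ≤ 3 := by
  constructor
  · intro h
    by_contra hd
    obtain ⟨i, j, ⟨P⟩, hij, rfl⟩ : ∃ i j, Nonempty (Pack i j) ∧ i ≤ j ∧ d = i + 1 := by
      obtain ⟨k, hk | hk⟩ := Nat.even_or_odd' (d - 4)
      · exact ⟨_, _, p29.iter k, by omega, by omega⟩
      · exact ⟨_, _, p14.iter k, le_rfl, by omega⟩
    have := P.fin
    have hxa : P.G.Adj P.x P.a := (P.nb _).2 (Or.inl rfl)
    have hxb : P.G.Adj P.x P.b := (P.nb _).2 (Or.inr rfl)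
    have hα : P.G.indepNum = P.α := by
      apply le_antisymm
      · obtain ⟨s, hs⟩ := P.G.exists_isNIndepSet_indepNum
        exact hs.card_eq ▸ P.ub s (ind_iff.2 hs.isIndepSet)
      · obtain ⟨s, hs, hc, -⟩ := avoid P.ub P.cr hxa
        exact hc.trans (ind_iff.1 hs).card_le_indepNum
    have two : ∀ u p q, p ≠ q → P.G.Adj u p → P.G.Adj u q → 2 ≤ (P.G.neighborSet u).ncard :=
      fun u p q hpq hp hq => (Set.one_lt_ncard (Set.toFinite _)).2 ⟨p, hp, q, hq, hpq⟩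
    obtain ⟨s, hs, hx, hy⟩ := h P.V P.G (Crit.indepNum_lt (hα ▸ P.cr)) (fun v => by
      by_cases hx : v = P.x
      · exact ⟨P.a, hx ▸ hxa⟩
      · by_cases hy : v = P.y
        · exact ⟨P.c, hy ▸ P.yc⟩
        · exact (P.desc v hx hy).imp fun w hw => hw.1) P.x P.y (two _ _ _ P.ab hxa hxb)
      (two _ _ _ P.cd P.yc P.yd) (P.edist hij)
    have h1 := P.bad s (ind_iff.2 hs.isIndepSet) hx hy
    have h2 := hs.card_eq
    omega
  · intro hd V _ G hc _ x y hx _ hxy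
    obtain ⟨p, hp⟩ := SimpleGraph.exists_walk_of_edist_eq_coe hxy
    have hu : ∀ t, Ind G t → t.card ≤ G.indepNum := fun t ht => (ind_iff.1 ht).card_le_indepNum
    obtain ⟨s, hs, hα, h⟩ := near hu (Crit.of_indepNum hc) (fun w => by
      obtain ⟨a, ha, b, hb, hab⟩ := (Set.one_lt_ncard (Set.toFinite _)).1 hx
      by_cases hw : a = w
      · exact ⟨b, hb, hw ▸ hab.symm⟩
      · exact ⟨a, ha, hw⟩) p (hp.trans_le hd)
    exact ⟨s, ⟨ind_iff.1 hs, le_antisymm (hu s hs) hα⟩, h⟩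

end Pool.Agent.Results.MP_ae2185_co.ExactDistance
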