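import Pool.Agent.Lib.MP_ae2185_co.Blow

namespace Pool.Agent.Results.MP_ae2185_co.HighlyConnected

open Pool.Agent.Lib.MP_ae2185_co

/-- Wade's conjecture is false, in every connectivity: for each `k` there is a finite
alpha-critical graph with all degrees at least `k + 2` that stays connected after deleting any `k`
vertices, and two vertices `x`, `y` such that every maximum independent set contains `x` or `y`. -/
theorem result (k : ℕ) :
    ∃ (V : Type) (_ : Finite V) (G : SimpleGraph V),
      (∀ e ∈ G.edgeSet, G.indepNum < (G.deleteEdges {e}).indepNum) ∧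
      (∀ v, k + 2 ≤ (G.neighborSet v).ncard) ∧
      (∀ S : Finset V, S.card ≤ k → (G.induce (S : Set V)ᶜ).Connected) ∧
      ∃ x y : V, ∀ s : Finset V, G.IsNIndepSet G.indepNum s → x ∈ s ∨ y ∈ s := by
  refine ⟨BV k, inferInstance, B k, crit_B, deg_B, conn_B, up 0, up 1, fun s hs => ?_⟩
  by_contra hno
  rw [not_or] at hno
  have h1 := (ubB s hs.isIndepSet).2 hno.1 hno.2
  have h2 := hs.card_eq
  rw [indepNum_B] at h2
  omega

end Pool.Agent.Results.MP_ae2185_co.HighlyConnected
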